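import Pool.Agent.Helper76.TC2.Goals

/-!
# Project TC2: WM (transfer of chains)
-/

set_option autoImplicit false

open Set

namespace Pool.Agent.Helper45.TC2.WM

open Pool.Agent.Helper76.TC2

theorem t : S_WM := by
  intro n n' f f' μ a b ψ x y hμ hψ hf hW η hη
  obtain ⟨k, z, h0, hk, hs, ha, hb⟩ := hW η hη
  refine ⟨k, fun i => ψ (z i), by simp only [h0], by simp only [hk], fun i hi => le_trans (hψ _ _) (hs i hi), ?_, ?_⟩
  · exact le_trans (Finset.sum_le_sum fun i _ => hψ (z i) (z (i + 1))) ha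
  · calc ∑ i ∈ Finset.range k, |f' (ψ (z i)) - f' (ψ (z (i + 1)))|
        ≤ ∑ i ∈ Finset.range k, μ * |f (z i) - f (z (i + 1))| :=
          Finset.sum_le_sum fun i _ => hf (z i) (z (i + 1))
      _ = μ * ∑ i ∈ Finset.range k, |f (z i) - f (z (i + 1))| := by rw [Finset.mul_sum]
      _ ≤ μ * b := mul_le_mul_of_nonneg_left hb hμ

end Pool.Agent.Helper45.TC2.WM
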